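import Mathlib

namespace Pool.Agent.Results.MP_a24849_co.Unbounded

open Finset

/-- `P v` is a partition of the neighbourhood of `v` into nonempty blocks, for every `v`. -/
def IsPart {V : Type} (G : SimpleGraph V) (P : V → Finset (Finset V)) : Prop :=
  ∀ v, (∀ A ∈ P v, A.Nonempty) ∧ (∀ A ∈ P v, ∀ B ∈ P v, A ≠ B → Disjoint A B) ∧
    ∀ u, G.Adj v u ↔ ∃ A ∈ P v, u ∈ A

/-- The `P`-corona of `G`; `inl v` is `(v,1)` and `inr (v,A)` is the block vertex `(v,A)`. -/
def corona {V : Type} (G : SimpleGraph V) (P : V → Finset (Finset V)) :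
    SimpleGraph (V ⊕ {b : V × Finset V // b.2 ∈ P b.1}) where
  Adj
    | Sum.inl _, Sum.inl _ => False
    | Sum.inl v, Sum.inr b => b.1.1 = v
    | Sum.inr b, Sum.inl v => b.1.1 = v
    | Sum.inr a, Sum.inr b => G.Adj a.1.1 b.1.1 ∧ b.1.1 ∈ a.1.2 ∧ a.1.1 ∈ b.1.2
  symm := ⟨by
    rintro (a | a) (b | b) h
    · exact h
    · exact h
    · exact h
    · exact ⟨h.1.symm, h.2.2, h.2.1⟩⟩
  loopless := ⟨by
    rintro (a | a) h
    · exact h
    · exact h.1.ne rfl⟩

/-- `D` is a dominating set. -/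
def Dom {W : Type} (H : SimpleGraph W) (D : Finset W) : Prop :=
  ∀ w, w ∉ D → ∃ u ∈ D, H.Adj w u

/-- `D` is an accurate dominating set. -/
def Accurate {W : Type} (H : SimpleGraph W) (D : Finset W) : Prop :=
  Dom H D ∧ ¬ ∃ D' : Finset W, Disjoint D' D ∧ D'.card = D.card ∧ Dom H D'

/-- The accurate domination number. -/
noncomputable def gammaA {W : Type} (H : SimpleGraph W) : ℕ :=
  sInf {k | ∃ D : Finset W, D.card = k ∧ Accurate H D}

section Hall
variable {X I L : Type} [Fintype X] [Fintype I] [DecidableEq X] [DecidableEq I] [DecidableEq L]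

theorem star (l : X × I → L) (p k : ℕ) (hI : Fintype.card I = p)
    (hl : ∀ y, (univ.filter (fun e => l e = y)).card = p) (Y : Finset X) (F : Finset (X × I))
    (ha : ∀ x, x ∉ Y → ∃ i, (x, i) ∈ F) (hc : Y.card + F.card ≤ Fintype.card X + k)
    (S : Finset X) (T : Finset L) (hT : ∀ x ∈ S, ∀ i, (x, i) ∉ F → l (x, i) ∈ T) :
    p * S.card + (T ∩ F.image l).card ≤ p * T.card + (S \ Y).card + k := by
  set ES : Finset (X × I) := S ×ˢ univ with hES
  set ET : Finset (X × I) := univ.filter (fun e => l e ∈ T) with hET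
  have h1 : ES.card = p * S.card := by simp [hES, hI, mul_comm]
  have h2 : ET.card = p * T.card := by
    rw [card_eq_sum_card_fiberwise (f := l) (t := T) (by intro e he; simpa [hET] using he)]
    rw [mul_comm, ← smul_eq_mul, ← sum_const]
    refine sum_congr rfl (fun y hy => ?_)
    rw [← hl y]
    congr 1
    ext e
    simp only [hET, mem_filter, mem_univ, true_and]
    exact ⟨fun h => h.2, fun h => ⟨h ▸ hy, h⟩⟩
  have h3 : ES \ ET = (F ∩ ES) \ ET := by
    ext ⟨x, i⟩
    simp only [hES, hET, mem_sdiff, mem_inter, mem_product, mem_univ, and_true, mem_filter,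
      true_and]
    exact ⟨fun h => ⟨⟨by_contra fun hn => h.2 (hT x h.1 i hn), h.1⟩, h.2⟩, fun h => ⟨h.1.2, h.2⟩⟩
  have h4 : (Yᶜ \ S).card ≤ (F \ ES).card := by
    refine le_trans (card_le_card ?_) (card_image_le (f := Prod.fst))
    intro x hx
    simp only [mem_sdiff, mem_compl] at hx
    obtain ⟨i, hi⟩ := ha x hx.1
    exact mem_image.mpr ⟨(x, i), by simp [hES, hi, hx.2], rfl⟩
  have h5 : (T ∩ F.image l).card ≤ (F ∩ ET).card := by
    refine le_trans (card_le_card ?_) (card_image_le (f := l))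
    intro y hy
    simp only [mem_inter, mem_image] at hy
    obtain ⟨hy, e, he, rfl⟩ := hy
    exact mem_image.mpr ⟨e, by simp [hET, he, hy], rfl⟩
  have h6 : (F ∩ ET).card ≤ ((F ∩ ES) ∩ ET).card + (ET \ ES).card := by
    refine le_trans (card_le_card ?_) (card_union_le _ _)
    intro e he
    simp only [mem_inter, mem_union, mem_sdiff] at he ⊢
    tauto
  have e1 := card_sdiff_add_card_inter ES ET
  have e2 := card_sdiff_add_card_inter ET ES
  have e3 := card_sdiff_add_card_inter (F ∩ ES) ET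
  have e4 := card_sdiff_add_card_inter F ES
  have e5 := card_sdiff_add_card_inter Yᶜ S
  have e6 := card_add_card_compl Y
  have e7 : Yᶜ ∩ S = S \ Y := by ext; simp [and_comm]
  rw [inter_comm ET ES] at e2
  rw [← h3] at e3
  rw [e7] at e5
  omega

theorem hall (l : X × I → L) (p k : ℕ) (hk : k + 1 < p) (hI : Fintype.card I = p)
    (hl : ∀ y, (univ.filter (fun e => l e = y)).card = p) (Y : Finset X) (F : Finset (X × I))
    (ha : ∀ x, x ∉ Y → ∃ i, (x, i) ∈ F) (hb : ∀ x, x ∉ Y → ∀ i, ∃ e ∈ F, l e = l (x, i))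
    (hc : Y.card + F.card ≤ Fintype.card X + k) :
    ∃ g : X → I, (∀ x, (x, g x) ∉ F) ∧ Function.Injective (fun x => l (x, g x)) := by
  let t : X → Finset L := fun x => (univ.filter (fun i => (x, i) ∉ F)).image (fun i => l (x, i))
  have ht : ∀ S : Finset X, ∀ x ∈ S, ∀ i, (x, i) ∉ F → l (x, i) ∈ S.biUnion t := by
    intro S x hx i hi
    exact mem_biUnion.mpr ⟨x, hx, mem_image.mpr ⟨i, by simp [hi], rfl⟩⟩
  have key : ∀ S : Finset X, S.card ≤ (S.biUnion t).card := by
    intro S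
    have h1 := star l p k hI hl Y F ha hc S _ (ht S)
    have h2 := star l p k hI hl Y F ha hc (S \ Y) _ (ht (S \ Y))
    have h3 : (S \ Y).biUnion t ⊆ F.image l := by
      intro y hy
      obtain ⟨x, hx, hy⟩ := mem_biUnion.mp hy
      obtain ⟨i, _, rfl⟩ := mem_image.mp hy
      exact mem_image.mpr (hb x (mem_sdiff.mp hx).2 i)
    have h4 : (S \ Y).biUnion t ⊆ S.biUnion t ∩ F.image l :=
      subset_inter (biUnion_subset_biUnion_of_subset_left t sdiff_subset) h3
    rw [inter_eq_left.mpr h3, Finset.sdiff_idem] at h2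
    have h5 := card_le_card h4
    have h6 : (S \ Y).card ≤ ((S \ Y).biUnion t).card := by
      by_contra h
      obtain ⟨q, rfl⟩ : ∃ q, p = q + 1 := ⟨p - 1, by omega⟩
      nlinarith
    by_contra h
    nlinarith
  obtain ⟨f, hf, hft⟩ := (all_card_le_biUnion_card_iff_exists_injective t).mp key
  have : ∀ x, ∃ i, (x, i) ∉ F ∧ l (x, i) = f x := by
    intro x
    obtain ⟨i, hi, e⟩ := mem_image.mp (hft x)
    exact ⟨i, by simpa using hi, e⟩
  choose g hg using this
  refine ⟨g, fun x => (hg x).1, ?_⟩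
  simp only [fun x => (hg x).2]
  exact hf

end Hall

section Ex
variable (p : ℕ) [Fact p.Prime]

abbrev V := ZMod p × ZMod p

def G : SimpleGraph (V p) where
  Adj v u := u.1 ≠ v.1
  symm := ⟨fun _ _ h => h.symm⟩
  loopless := ⟨fun _ h => h rfl⟩

variable {p}

def blk (v : V p) (a : ZMod p) : Finset (V p) :=
  univ.filter (fun u => u.1 ≠ v.1 ∧ u.2 - v.2 = a * (u.1 - v.1))

def P (v : V p) : Finset (Finset (V p)) := univ.image (blk v)

theorem mem_blk (v : V p) (a : ZMod p) : (v.1 + 1, v.2 + a) ∈ blk v a := by simp [blk]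

theorem part : IsPart (G p) P := by
  intro v
  refine ⟨fun A hA => ?_, fun A hA B hB hAB => ?_, fun u => ⟨fun h => ?_, ?_⟩⟩
  · obtain ⟨a, _, rfl⟩ := mem_image.mp hA
    exact ⟨_, mem_blk v a⟩
  · obtain ⟨a, _, rfl⟩ := mem_image.mp hA
    obtain ⟨b, _, rfl⟩ := mem_image.mp hB
    rw [disjoint_left]
    intro u h1 h2
    simp only [blk, mem_filter, mem_univ, true_and] at h1 h2
    exact hAB (by rw [mul_right_cancel₀ (sub_ne_zero.mpr h1.1) (h1.2.symm.trans h2.2)])
  · have h' : u.1 ≠ v.1 := h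
    refine ⟨blk v ((u.2 - v.2) / (u.1 - v.1)), mem_image_of_mem _ (mem_univ _), ?_⟩
    simp only [blk, mem_filter, mem_univ, true_and]
    exact ⟨h', (div_mul_cancel₀ _ (sub_ne_zero.mpr h')).symm⟩
  · rintro ⟨A, hA, hu⟩
    obtain ⟨a, _, rfl⟩ := mem_image.mp hA
    simp only [blk, mem_filter, mem_univ, true_and] at hu
    exact hu.1

abbrev W (p : ℕ) [Fact p.Prime] := V p ⊕ {b : V p × Finset (V p) // b.2 ∈ P b.1}

instance : DecidableEq (W p) := instDecidableEqSum

instance : Fintype (W p) := instFintypeSum _ _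

def φ (e : V p × ZMod p) : W p := Sum.inr ⟨(e.1, blk e.1 e.2), mem_image_of_mem _ (mem_univ _)⟩

theorem φ_inj : Function.Injective (φ : V p × ZMod p → W p) := by
  rintro ⟨v, a⟩ ⟨u, b⟩ h
  simp only [φ, Sum.inr.injEq, Subtype.mk.injEq, Prod.mk.injEq] at h
  obtain ⟨rfl, h⟩ := h
  have := mem_blk v a
  rw [h] at this
  simp [blk] at this
  rw [this]

theorem cases_W (w : W p) : (∃ v, w = Sum.inl v) ∨ ∃ e, w = φ e := by
  rcases w with v | ⟨⟨v, A⟩, h⟩
  · exact Or.inl ⟨v, rfl⟩
  · obtain ⟨a, _, ha⟩ := mem_image.mp h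
    have ha' : blk v a = A := ha
    subst ha'
    exact Or.inr ⟨(v, a), rfl⟩

def l (e : V p × ZMod p) : V p := (e.2, e.1.2 - e.2 * e.1.1)

theorem adj_φ (e f : V p × ZMod p) :
    (corona (G p) P).Adj (φ e) (φ f) ↔ e ≠ f ∧ l e = l f := by
  obtain ⟨⟨x, y⟩, a⟩ := e
  obtain ⟨⟨x', y'⟩, b⟩ := f
  change (x' ≠ x ∧ (x', y') ∈ blk (x, y) a ∧ (x, y) ∈ blk (x', y') b) ↔ _
  simp only [blk, mem_filter, mem_univ, true_and, l, Prod.mk.injEq, ne_eq]
  constructor
  · rintro ⟨h1, ⟨_, h2⟩, _, h3⟩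
    have hab : a = b := mul_right_cancel₀ (sub_ne_zero.mpr h1) (by linear_combination -h2 - h3)
    subst hab
    exact ⟨fun h => h1 h.1.1.symm, rfl, by linear_combination -h2⟩
  · rintro ⟨h1, rfl, h2⟩
    have : ¬ x' = x := by
      rintro rfl
      exact h1 ⟨⟨rfl, by linear_combination h2⟩, rfl⟩
    exact ⟨this, ⟨this, by linear_combination -h2⟩, fun h => this h.symm,
      by linear_combination h2⟩

theorem fib (y : V p) : (univ.filter (fun e : V p × ZMod p => l e = y)).card = p := by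
  have : univ.filter (fun e : V p × ZMod p => l e = y) =
      univ.image (fun x : ZMod p => ((x, y.2 + y.1 * x), y.1)) := by
    ext ⟨⟨x, z⟩, a⟩
    obtain ⟨y1, y2⟩ := y
    simp only [l, mem_filter, mem_univ, true_and, Prod.mk.injEq, mem_image]
    constructor
    · rintro ⟨rfl, rfl⟩; exact ⟨x, ⟨rfl, by ring⟩, rfl⟩
    · rintro ⟨x, ⟨rfl, rfl⟩, rfl⟩; exact ⟨rfl, by ring⟩
  rw [this, card_image_of_injective _ (fun a b h => by simpa using congrArg (·.1.1) h)]
  simp

theorem main (k : ℕ) (hk : k + 1 < p) (D : Finset (W p)) (hD : Accurate (corona (G p) P) D) :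
    Fintype.card (V p) + k < D.card := by
  by_contra hlt
  let Y : Finset (V p) := univ.filter (fun v => Sum.inl v ∈ D)
  let F : Finset (V p × ZMod p) := univ.filter (fun e => φ e ∈ D)
  have hcard : Y.card + F.card = D.card := by
    have : D = Y.image Sum.inl ∪ F.image φ := by
      ext w
      simp only [mem_union, mem_image, Y, F, mem_filter, mem_univ, true_and]
      constructor
      · intro h
        rcases cases_W w with ⟨v, rfl⟩ | ⟨e, rfl⟩
        · exact Or.inl ⟨v, h, rfl⟩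
        · exact Or.inr ⟨e, h, rfl⟩
      · rintro (⟨v, h, rfl⟩ | ⟨e, h, rfl⟩) <;> exact h
    conv_rhs => rw [this]
    rw [card_union_of_disjoint, card_image_of_injective _ Sum.inl_injective,
      card_image_of_injective _ φ_inj]
    rw [disjoint_left]
    intro w h1 h2
    obtain ⟨v, _, rfl⟩ := mem_image.mp h1
    obtain ⟨e, _, he⟩ := mem_image.mp h2
    simp [φ] at he
  have ha : ∀ x, x ∉ Y → ∃ i, (x, i) ∈ F := by
    intro x hx
    obtain ⟨u, hu, hadj⟩ := hD.1 (Sum.inl x) (by simpa [Y] using hx)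
    rcases cases_W u with ⟨v, rfl⟩ | ⟨⟨v, a⟩, rfl⟩
    · exact hadj.elim
    · obtain rfl : v = x := hadj
      exact ⟨a, by simpa [F] using hu⟩
  have hb : ∀ x, x ∉ Y → ∀ i, ∃ e ∈ F, l e = l (x, i) := by
    intro x hx i
    by_cases h : φ (x, i) ∈ D
    · exact ⟨(x, i), by simpa [F] using h, rfl⟩
    · obtain ⟨u, hu, hadj⟩ := hD.1 _ h
      rcases cases_W u with ⟨v, rfl⟩ | ⟨e, rfl⟩
      · obtain rfl : x = v := hadj
        exact absurd (by simpa [Y] using hu) hx
      · exact ⟨e, by simpa [F] using hu, ((adj_φ _ _).mp hadj).2.symm⟩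
  obtain ⟨g, hg, hinj⟩ := hall l p k hk (ZMod.card p) fib Y F ha hb (by omega)
  have hsurj := Finite.surjective_of_injective hinj
  have hge : Fintype.card (V p) ≤ D.card := by
    have h4 : Yᶜ.card ≤ F.card := by
      refine le_trans (card_le_card ?_) (card_image_le (f := Prod.fst))
      intro x hx
      obtain ⟨i, hi⟩ := ha x (mem_compl.mp hx)
      exact mem_image.mpr ⟨(x, i), hi, rfl⟩
    have := card_add_card_compl Y
    omega
  let M : Finset (W p) := univ.image (fun x => φ (x, g x))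
  have hM : M ⊆ Dᶜ := by
    intro w hw
    obtain ⟨x, _, rfl⟩ := mem_image.mp hw
    simpa [F] using hg x
  have hMc : M.card ≤ D.card := card_image_le.trans (by simpa using hge)
  have hV : Fintype.card (V p) = p * p := by simp [ZMod.card]
  have hW : p * p + p * p * p ≤ Fintype.card (W p) := by
    have := Fintype.card_le_of_injective
      (Sum.elim Sum.inl φ : V p ⊕ (V p × ZMod p) → W p)
      (Function.Injective.sumElim Sum.inl_injective φ_inj (fun a b h => by simp [φ] at h))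
    simpa [ZMod.card] using this
  have hc := card_add_card_compl D
  obtain ⟨D', h1, h2, h3⟩ := exists_subsuperset_card_eq hM hMc (by
    have h1 : p * p * 2 ≤ p * p * p := Nat.mul_le_mul_left _ (by omega)
    have h2 : p * 2 ≤ p * p := Nat.mul_le_mul_left _ (by omega)
    omega)
  refine hD.2 ⟨D', ?_, h3, fun w hw => ?_⟩
  · rw [disjoint_left]
    exact fun w hw => mem_compl.mp (h2 hw)
  · rcases cases_W w with ⟨v, rfl⟩ | ⟨e, rfl⟩
    · exact ⟨φ (v, g v), h1 (mem_image_of_mem _ (mem_univ v)), rfl⟩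
    · obtain ⟨x, hx⟩ := hsurj (l e)
      have hm : φ (x, g x) ∈ D' := h1 (mem_image_of_mem _ (mem_univ x))
      exact ⟨_, hm, (adj_φ _ _).mpr ⟨fun h => hw (h ▸ hm), hx.symm⟩⟩

end Ex

theorem result (k : ℕ) : ∃ (V : Type) (_ : Fintype V) (G : SimpleGraph V)
    (P : V → Finset (Finset V)), IsPart G P ∧ Fintype.card V + k < gammaA (corona G P) := by
  obtain ⟨p, hp, hpp⟩ := Nat.exists_infinite_primes (k + 2)
  have : Fact p.Prime := ⟨hpp⟩
  refine ⟨V p, inferInstance, G p, P, part, ?_⟩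
  refine lt_of_lt_of_le (Nat.lt_succ_self _) (le_csInf ⟨_, univ, rfl, by simp [Dom], ?_⟩ ?_)
  · rintro ⟨D', h1, h2, _⟩
    have h3 : D' = ∅ := h1.eq_bot_of_le (subset_univ _)
    rw [h3] at h2
    exact absurd h2.symm (card_pos.mpr ⟨Sum.inl (0, 0), mem_univ _⟩).ne'
  · rintro _ ⟨D, rfl, hD⟩
    exact main k (by omega) D hD

end Pool.Agent.Results.MP_a24849_co.Unbounded
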